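import Pool.Agent.U6.EK.Stm

/-!
# Project EK (helper6), package SAND
-/

set_option autoImplicit false

namespace Pool.Agent.U427.EK

open Finset Filter Topology Pool.Agent.U6.EK
open Pool.Agent.U923.PP (es cnt nev WH PW)
open Pool.Agent.Helper92K9.WI (gg)

/-! ### the normal distribution function is Lipschitz -/

lemma pdf_le (x : ℝ) : ProbabilityTheory.gaussianPDFReal 0 1 x ≤ 1 := by
  rw [ProbabilityTheory.gaussianPDFReal]
  have h1 : Real.exp (-(x - 0) ^ 2 / (2 * ((1 : NNReal) : ℝ))) ≤ 1 := by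
    rw [Real.exp_le_one_iff]
    have : 0 ≤ (x - 0) ^ 2 := sq_nonneg _
    have h2 : 0 ≤ (x - 0) ^ 2 / (2 * ((1 : NNReal) : ℝ)) := by positivity
    rw [neg_div]
    linarith
  have h2 : (√(2 * Real.pi * ((1 : NNReal) : ℝ)))⁻¹ ≤ 1 := by
    apply inv_le_one_of_one_le₀
    rw [Real.one_le_sqrt]
    have := Real.pi_gt_three
    simp only [NNReal.coe_one, mul_one]
    linarith
  calc _ ≤ (1 : ℝ) * 1 := mul_le_mul h2 h1 (Real.exp_pos _).le zero_le_one
    _ = 1 := one_mul 1

lemma Phi_lip (z δ : ℝ) (hδ : 0 ≤ δ) : Phi (z + δ) ≤ Phi z + δ := by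
  unfold Phi
  have h1 : ProbabilityTheory.gaussianReal 0 1 (Set.Iic (z + δ)) ≤
      ProbabilityTheory.gaussianReal 0 1 (Set.Iic z) + ENNReal.ofReal δ := by
    have h2 : Set.Iic (z + δ) ⊆ Set.Iic z ∪ Set.Ioc z (z + δ) := by
      intro x hx
      rcases le_or_gt x z with h | h
      · exact Or.inl h
      · exact Or.inr ⟨h, hx⟩
    refine (MeasureTheory.measure_mono h2).trans ((MeasureTheory.measure_union_le _ _).trans ?_)
    gcongr
    rw [ProbabilityTheory.gaussianReal_apply 0 (one_ne_zero)]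
    calc ∫⁻ x in Set.Ioc z (z + δ), ProbabilityTheory.gaussianPDF 0 1 x
        ≤ ∫⁻ _ in Set.Ioc z (z + δ), 1 := by
          refine MeasureTheory.lintegral_mono fun x => ?_
          rw [ProbabilityTheory.gaussianPDF]
          exact ENNReal.ofReal_le_one.2 (pdf_le x)
      _ = ENNReal.ofReal δ := by
          rw [MeasureTheory.setLIntegral_one, Real.volume_Ioc]
          congr 1
          ring
  have h3 := ENNReal.toReal_mono (by
    exact ENNReal.add_ne_top.2 ⟨MeasureTheory.measure_ne_top _ _, ENNReal.ofReal_ne_top⟩) h1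
  rwa [ENNReal.toReal_add (MeasureTheory.measure_ne_top _ _) ENNReal.ofReal_ne_top,
    ENNReal.toReal_ofReal hδ] at h3

/-! ### Slutsky's lemma for counting measures -/

open Classical in
lemma slutsky (Ω : ℕ → Finset ℕ) (A N : ℕ → ℕ → ℝ) (μ L r D : ℕ → ℝ)
    (hL : Tendsto L atTop atTop)
    (hμ : Tendsto (fun n => (μ n - L n) / √(L n)) atTop (𝓝 0))
    (hr : Tendsto (fun n => r n / √(L n)) atTop (𝓝 0))
    (hH : ∀ z : ℝ, Tendsto (fun n => (((Ω n).filter fun a => A n a ≤ μ n + z * √(μ n)).card : ℝ) / D n)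
      atTop (𝓝 (Phi z)))
    (hD : ∀ᶠ n in atTop, 0 < D n)
    (hAN : ∀ᶠ n in atTop, ∀ a ∈ Ω n, A n a ≤ N n a)
    (hm : ∀ᶠ n in atTop, (∑ a ∈ Ω n, (N n a - A n a)) / D n ≤ r n) (z : ℝ) :
    Tendsto (fun n => (((Ω n).filter fun a => N n a ≤ L n + z * √(L n)).card : ℝ) / D n)
      atTop (𝓝 (Phi z)) := by
  have hL0 : ∀ᶠ n in atTop, 0 < L n := hL.eventually_gt_atTop 0
  have hsL : Tendsto (fun n => √(L n)) atTop atTop := Real.tendsto_sqrt_atTop.comp hL
  have hs : Tendsto (fun n => √(μ n) / √(L n)) atTop (𝓝 1) := by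
    have h1 : Tendsto (fun n => (μ n - L n) / √(L n) * (√(L n))⁻¹) atTop (𝓝 (0 * 0)) :=
      hμ.mul (tendsto_inv_atTop_zero.comp hsL)
    have h2 : Tendsto (fun n => μ n / L n) atTop (𝓝 1) := by
      have h3 : Tendsto (fun n => (μ n - L n) / √(L n) * (√(L n))⁻¹ + 1) atTop (𝓝 (0 * 0 + 1)) :=
        h1.add_const 1
      rw [mul_zero, zero_add] at h3
      refine h3.congr' ?_
      filter_upwards [hL0] with n hn
      have h4 : √(L n) * √(L n) = L n := Real.mul_self_sqrt hn.le
      have h5 : √(L n) ≠ 0 := (Real.sqrt_pos.2 hn).ne'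
      have h6 : (μ n - L n) / √(L n) * (√(L n))⁻¹ = (μ n - L n) / L n := by
        rw [← div_eq_mul_inv, div_div, h4]
      rw [h6, sub_div, div_self hn.ne']
      ring
    have h3 : Tendsto (fun n => √(μ n / L n)) atTop (𝓝 (√1)) :=
      (Real.continuous_sqrt.tendsto 1).comp h2
    rw [Real.sqrt_one] at h3
    refine h3.congr' ?_
    filter_upwards [hL0] with n hn
    rw [Real.sqrt_div' _ hn.le]
  refine tendsto_order.2 ⟨fun c hc => ?_, fun c hc => ?_⟩
  · -- lower bound
    obtain ⟨δ, hδ⟩ : ∃ δ : ℝ, δ = (Phi z - c) / 2 := ⟨_, rfl⟩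
    have hδ0 : 0 < δ := by rw [hδ]; linarith
    have h1 : c < Phi (z - δ) := by
      have := Phi_lip (z - δ) δ hδ0.le
      rw [sub_add_cancel] at this
      linarith
    have h2 : Tendsto (fun n => (((Ω n).filter fun a => A n a ≤ μ n + (z - δ) * √(μ n)).card : ℝ) / D n -
        r n / √(L n) * (2 / δ)) atTop (𝓝 (Phi (z - δ) - 0 * (2 / δ))) :=
      (hH (z - δ)).sub (hr.mul_const _)
    rw [zero_mul, sub_zero] at h2
    have h3 : Tendsto (fun n => (μ n - L n) / √(L n) + (z - δ) * (√(μ n) / √(L n)) + (δ / 2 - z)) atTop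
        (𝓝 (0 + (z - δ) * 1 + (δ / 2 - z))) :=
      (hμ.add (hs.const_mul _)).add_const _
    have h4 : ∀ᶠ n in atTop, (μ n - L n) / √(L n) + (z - δ) * (√(μ n) / √(L n)) + (δ / 2 - z) < 0 :=
      h3.eventually_lt_const (by linarith)
    filter_upwards [h2.eventually_const_lt h1, h4, hL0, hD, hAN, hm] with n g1 g2 g3 g4 g5 g6
    refine lt_of_lt_of_le g1 ?_
    have hq : 0 < √(L n) := Real.sqrt_pos.2 g3
    have g7 : μ n + (z - δ) * √(μ n) + δ / 2 * √(L n) ≤ L n + z * √(L n) := by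
      have := mul_lt_mul_of_pos_right g2 hq
      have e : ((μ n - L n) / √(L n) + (z - δ) * (√(μ n) / √(L n)) + (δ / 2 - z)) * √(L n) =
          (μ n - L n) + (z - δ) * √(μ n) + (δ / 2 - z) * √(L n) := by
        field_simp
      rw [e, zero_mul] at this
      linarith
    -- the bad set
    have g8 : (((Ω n).filter fun a => A n a ≤ μ n + (z - δ) * √(μ n)).card : ℝ) ≤
        (((Ω n).filter fun a => N n a ≤ L n + z * √(L n)).card : ℝ) +
        (((Ω n).filter fun a => δ / 2 * √(L n) < N n a - A n a).card : ℝ) := by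
      have : (Ω n).filter (fun a => A n a ≤ μ n + (z - δ) * √(μ n)) ⊆
          (Ω n).filter (fun a => N n a ≤ L n + z * √(L n)) ∪
          (Ω n).filter (fun a => δ / 2 * √(L n) < N n a - A n a) := by
        intro a ha
        rw [mem_filter] at ha
        rw [mem_union, mem_filter, mem_filter]
        rcases le_or_gt (N n a - A n a) (δ / 2 * √(L n)) with h | h
        · exact Or.inl ⟨ha.1, by linarith [ha.2]⟩
        · exact Or.inr ⟨ha.1, h⟩
      exact_mod_cast (card_le_card this).trans (card_union_le _ _)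
    have g9 : (((Ω n).filter fun a => δ / 2 * √(L n) < N n a - A n a).card : ℝ) * (δ / 2 * √(L n)) ≤
        ∑ a ∈ Ω n, (N n a - A n a) := by
      rw [← nsmul_eq_mul]
      refine (card_nsmul_le_sum _ (fun a => N n a - A n a) _ fun a ha => (mem_filter.1 ha).2.le).trans ?_
      exact sum_le_sum_of_subset_of_nonneg (filter_subset _ _) fun a ha _ => by linarith [g5 a ha]
    have g10 : (((Ω n).filter fun a => δ / 2 * √(L n) < N n a - A n a).card : ℝ) / D n ≤
        r n / √(L n) * (2 / δ) := by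
      have e : r n / √(L n) * (2 / δ) = r n / (δ / 2 * √(L n)) := by
        field_simp
      rw [e, le_div_iff₀ (by positivity), div_mul_eq_mul_div]
      exact (div_le_div_of_nonneg_right g9 g4.le).trans g6
    have g11 := div_le_div_of_nonneg_right g8 g4.le
    rw [add_div] at g11
    linarith
  · -- upper bound
    obtain ⟨δ, hδ⟩ : ∃ δ : ℝ, δ = (c - Phi z) / 2 := ⟨_, rfl⟩
    have hδ0 : 0 < δ := by rw [hδ]; linarith
    have h1 : Phi (z + δ) < c := by
      have := Phi_lip z δ hδ0.le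
      linarith
    have h3 : Tendsto (fun n => (μ n - L n) / √(L n) + (z + δ) * (√(μ n) / √(L n)) - z) atTop
        (𝓝 (0 + (z + δ) * 1 - z)) :=
      (hμ.add (hs.const_mul _)).sub_const _
    have h4 : ∀ᶠ n in atTop, 0 < (μ n - L n) / √(L n) + (z + δ) * (√(μ n) / √(L n)) - z :=
      h3.eventually_const_lt (by linarith)
    filter_upwards [(hH (z + δ)).eventually_lt_const h1, h4, hL0, hD, hAN] with n g1 g2 g3 g4 g5
    refine lt_of_le_of_lt ?_ g1
    have hq : 0 < √(L n) := Real.sqrt_pos.2 g3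
    have g7 : L n + z * √(L n) ≤ μ n + (z + δ) * √(μ n) := by
      have := mul_lt_mul_of_pos_right g2 hq
      have e : ((μ n - L n) / √(L n) + (z + δ) * (√(μ n) / √(L n)) - z) * √(L n) =
          (μ n - L n) + (z + δ) * √(μ n) - z * √(L n) := by
        field_simp
      rw [e, zero_mul] at this
      linarith
    refine div_le_div_of_nonneg_right ?_ g4.le
    have : (Ω n).filter (fun a => N n a ≤ L n + z * √(L n)) ⊆
        (Ω n).filter (fun a => A n a ≤ μ n + (z + δ) * √(μ n)) := by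
      intro a ha
      rw [mem_filter] at ha ⊢
      exact ⟨ha.1, by linarith [ha.2, g5 a ha.1]⟩
    exact_mod_cast card_le_card this

lemma nev_mono {P Q : Finset ℕ} (h : P ⊆ Q) (W : ℕ → ℕ → Prop) (a : ℕ) : nev P W a ≤ nev Q W a := by
  classical
  unfold nev
  exact card_le_card (filter_subset_filter _ h)

lemma nev_union {P Q R : Finset ℕ} (h : P ⊆ Q ∪ R) (W : ℕ → ℕ → Prop) (a : ℕ) :
    nev P W a ≤ nev Q W a + nev R W a := by
  classical
  unfold nev
  refine (card_le_card (filter_subset_filter _ h)).trans ?_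
  rw [filter_union]
  exact card_union_le _ _

lemma PW_sub {w y : ℝ} (h : w ≤ y) : PW 2 w ⊆ PW 2 y := by
  unfold PW
  exact filter_subset_filter _ (Ioc_subset_Ioc_right (Nat.floor_mono h))

lemma PW_union {w y : ℝ} : PW 2 y ⊆ PW 2 w ∪ PW w y := by
  intro p hp
  unfold PW at hp ⊢
  rw [mem_filter, mem_Ioc] at hp
  rw [mem_union, mem_filter, mem_filter, mem_Ioc, mem_Ioc]
  rcases le_or_gt p ⌊w⌋₊ with h | h
  · exact Or.inl ⟨⟨hp.1.1, h⟩, hp.2⟩
  · exact Or.inr ⟨⟨h, hp.1.2⟩, hp.2⟩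

/-- `(log (3 x) + c) / √x → 0` -/
lemma log_div_sqrt (c : ℝ) : Tendsto (fun x : ℝ => (Real.log (3 * x) + c) / √x) atTop (𝓝 0) := by
  have h1 : Tendsto (fun x : ℝ => Real.log x / x ^ (1 / 2 : ℝ)) atTop (𝓝 0) :=
    (isLittleO_log_rpow_atTop (by norm_num)).tendsto_div_nhds_zero
  have h2 : Tendsto (fun x : ℝ => (Real.log 3 + c) * (√x)⁻¹) atTop (𝓝 ((Real.log 3 + c) * 0)) :=
    (tendsto_inv_atTop_zero.comp Real.tendsto_sqrt_atTop).const_mul _
  have h3 := h1.add h2
  rw [mul_zero, add_zero] at h3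
  refine h3.congr' ?_
  filter_upwards [eventually_gt_atTop 0] with x hx
  rw [Real.log_mul (by norm_num) hx.ne', Real.sqrt_eq_rpow]
  ring

/-- **SAND** -/
theorem t_SAND : T_SAND := by
  classical
  intro hHEAD hMU hFM b H X y hy hX N hN z
  obtain ⟨C, hC, hM1, -, -⟩ := hMU
  obtain ⟨C', hC', hF⟩ := hFM
  obtain ⟨L, hLd⟩ : ∃ L : ℕ → ℝ, L = fun n => Real.log (Real.log (y n)) := ⟨_, rfl⟩
  obtain ⟨w, hwd⟩ : ∃ w : ℕ → ℝ, w = fun n => Real.exp (Real.log (y n) / (3 * L n)) := ⟨_, rfl⟩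
  have hL : Tendsto L atTop atTop := by
    rw [hLd]
    exact Real.tendsto_log_atTop.comp (Real.tendsto_log_atTop.comp hy)
  have hexpL : ∀ᶠ n in atTop, Real.exp (L n) = Real.log (y n) := by
    filter_upwards [(Real.tendsto_log_atTop.comp hy).eventually_gt_atTop 0] with n hn
    rw [hLd]
    exact Real.exp_log hn
  -- `log w → ∞`
  have hlw : Tendsto (fun n => Real.log (w n)) atTop atTop := by
    have h1 : Tendsto (fun x : ℝ => Real.exp x / x ^ 1) atTop atTop := Real.tendsto_exp_div_pow_atTop 1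
    have h2 := (h1.comp hL).atTop_div_const (show (0 : ℝ) < 3 by norm_num)
    refine h2.congr' ?_
    filter_upwards [hexpL] with n hn
    simp only [Function.comp, pow_one]
    rw [hwd]
    simp only
    rw [Real.log_exp, hn, div_div]
    congr 1
    ring
  have hw : Tendsto w atTop atTop := by
    have h1 := Real.tendsto_exp_atTop.comp hlw
    refine h1.congr fun n => ?_
    simp only [Function.comp]
    rw [Real.exp_log]
    rw [hwd]
    exact Real.exp_pos _
  -- everything holds for large `n`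
  have hev : ∀ᶠ n in atTop, 3 ≤ w n ∧ w n ≤ y n ∧ 1 ≤ L n ∧ 1 ≤ Real.log (w n) ∧
      Real.log (y n) / Real.log (w n) = 3 * L n ∧ Real.log (Real.log (w n)) = L n - Real.log (3 * L n) ∧
      w n ^ (3 * Real.log (Real.log (w n))) ≤ X n ∧ 0 < (X n : ℝ) := by
    filter_upwards [hw.eventually_ge_atTop 3, hL.eventually_ge_atTop 1, hlw.eventually_ge_atTop 1,
      hexpL, hy.eventually_ge_atTop 1] with n g1 g2 g3 g4 g5
    have hly : 0 < Real.log (y n) := by rw [← g4]; exact Real.exp_pos _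
    have e1 : Real.log (w n) = Real.log (y n) / (3 * L n) := by
      rw [hwd]; exact Real.log_exp _
    have e2 : Real.log (y n) / Real.log (w n) = 3 * L n := by
      rw [e1]; field_simp
    have hw0 : 0 < w n := by linarith
    have e3 : w n ≤ y n := by
      rw [← Real.log_le_log_iff hw0 (by linarith), e1]
      exact div_le_self hly.le (by linarith)
    have e4 : Real.log (Real.log (w n)) = L n - Real.log (3 * L n) := by
      rw [e1, Real.log_div hly.ne' (by positivity), hLd]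
    have e5 : w n ^ (3 * Real.log (Real.log (w n))) ≤ y n := by
      have h1 : w n ^ (3 * Real.log (Real.log (w n))) ≤ w n ^ (3 * L n) := by
        apply Real.rpow_le_rpow_of_exponent_le (by linarith)
        rw [e4]
        have := Real.log_nonneg (show 1 ≤ 3 * L n by linarith)
        linarith
      refine h1.trans (le_of_eq ?_)
      rw [Real.rpow_def_of_pos hw0, e1]
      have : Real.log (y n) / (3 * L n) * (3 * L n) = Real.log (y n) := by field_simp
      rw [this, Real.exp_log (by linarith)]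
    have e6 : y n ≤ X n := by
      refine le_trans ?_ (hX n)
      nlinarith
    exact ⟨g1, e3, g2, g3, e2, e4, e5.trans e6, by linarith⟩
  obtain ⟨n0, hn0⟩ := eventually_atTop.1 hev
  -- the head
  have hH : ∀ z : ℝ, Tendsto (fun n => (((Icc 1 (X n)).filter fun a =>
      (nev (PW 2 (w n)) (WH (b n) (H n)) a : ℝ) ≤
      (∑ p ∈ PW 2 (w n), gg p) + z * √(∑ p ∈ PW 2 (w n), gg p)).card : ℝ) / X n) atTop (𝓝 (Phi z)) := by
    intro z
    have h1 := hHEAD (fun n => b (n + n0)) (fun n => H (n + n0)) (fun n => X (n + n0))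
      (fun n => w (n + n0)) (hw.comp (tendsto_add_atTop_nat n0))
      (fun n => (hn0 (n + n0) (Nat.le_add_left _ _)).1)
      (fun n => (hn0 (n + n0) (Nat.le_add_left _ _)).2.2.2.2.2.2.1) z
    exact (tendsto_add_atTop_iff_nat n0).1 h1
  have hres := slutsky (fun n => Icc 1 (X n)) (fun n a => (nev (PW 2 (w n)) (WH (b n) (H n)) a : ℝ))
    (fun n a => (N n a : ℝ)) (fun n => ∑ p ∈ PW 2 (w n), gg p) L
    (fun n => Real.log (3 * L n) + (C' + 1)) (fun n => (X n : ℝ)) hL ?_ ?_ hH ?_ ?_ ?_ z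
  · rw [hLd] at hres
    exact hres
  · -- the means
    have h1 := (log_div_sqrt C).comp hL
    refine squeeze_zero_norm' ?_ h1
    filter_upwards [hev] with n ⟨g1, g2, g3, g4, g5, g6, g7, g8⟩
    have h2 := hM1 (w n) g1
    rw [g6] at h2
    have h3 : 0 ≤ Real.log (3 * L n) := Real.log_nonneg (by linarith)
    simp only [Function.comp]
    rw [Real.norm_eq_abs, abs_div, abs_of_nonneg (Real.sqrt_nonneg (L n))]
    refine div_le_div_of_nonneg_right ?_ (Real.sqrt_nonneg _)
    rw [abs_le] at h2 ⊢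
    constructor <;> linarith [h2.1, h2.2]
  · exact (log_div_sqrt (C' + 1)).comp hL
  · filter_upwards [hev] with n ⟨g1, g2, g3, g4, g5, g6, g7, g8⟩
    exact g8
  · filter_upwards [hev] with n ⟨g1, g2, g3, g4, g5, g6, g7, g8⟩
    intro a ha
    exact_mod_cast (nev_mono (PW_sub g2) _ a).trans (hN n a ha).1
  · filter_upwards [hev] with n ⟨g1, g2, g3, g4, g5, g6, g7, g8⟩
    have h1 := hF (b n) (H n) (X n) (w n) (y n) g1 g2 (hX n)
    rw [g5] at h1
    have h2 : ∑ a ∈ Icc 1 (X n), ((N n a : ℝ) - (nev (PW 2 (w n)) (WH (b n) (H n)) a : ℝ)) ≤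
        ∑ a ∈ Icc 1 (X n), ((nev (PW (w n) (y n)) (WH (b n) (H n)) a : ℝ) + 1) := by
      refine sum_le_sum fun a ha => ?_
      have h3 : N n a ≤ nev (PW 2 (w n)) (WH (b n) (H n)) a + nev (PW (w n) (y n)) (WH (b n) (H n)) a + 1 :=
        (hN n a ha).2.trans (Nat.add_le_add_right (nev_union PW_union _ a) 1)
      have h4 : (N n a : ℝ) ≤ nev (PW 2 (w n)) (WH (b n) (H n)) a +
          nev (PW (w n) (y n)) (WH (b n) (H n)) a + 1 := by exact_mod_cast h3
      linarith
    have h5 : ∑ a ∈ Icc 1 (X n), ((nev (PW (w n) (y n)) (WH (b n) (H n)) a : ℝ) + 1) =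
        ∑ a ∈ Icc 1 (X n), (nev (PW (w n) (y n)) (WH (b n) (H n)) a : ℝ) + X n := by
      rw [sum_add_distrib, sum_const, Nat.card_Icc, nsmul_eq_mul, mul_one, Nat.add_sub_cancel]
    calc (∑ a ∈ Icc 1 (X n), ((N n a : ℝ) - (nev (PW 2 (w n)) (WH (b n) (H n)) a : ℝ))) / (X n : ℝ)
        ≤ (∑ a ∈ Icc 1 (X n), (nev (PW (w n) (y n)) (WH (b n) (H n)) a : ℝ) + X n) / (X n : ℝ) :=
          div_le_div_of_nonneg_right (h2.trans (le_of_eq h5)) g8.le
      _ = (∑ a ∈ Icc 1 (X n), (nev (PW (w n) (y n)) (WH (b n) (H n)) a : ℝ)) / (X n : ℝ) + 1 := by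
          rw [add_div, div_self g8.ne']
      _ ≤ Real.log (3 * L n) + (C' + 1) := by linarith

end Pool.Agent.U427.EK
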